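import Pool.Agent.H129.Geod.Red

/-!
# Isomorphism testing for geodetic graphs is as hard as graph isomorphism

The geodetic graph of a graph `G` on `V` consists of the complete graph on `V` with all edges
subdivided twice (the edge `u v` becomes the path `(u, u), (u, v), (v, u), (v, v)`), and of a tree
with three further vertices attached to each of its vertices; the tree at `(u, v)` tells whether
`u = v`, and whether `u`, `v` are adjacent in `G`.
-/

set_option autoImplicit false

namespace Pool.Agent.Results.MP_f934c9_lc.GeodeticGIComplete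

open Pool.Agent.NPC Pool.Agent.NPC.R671 Pool.Agent.NPC.UB129 Pool.Agent.H129.Geod

/-- **Isomorphism of geodetic graphs is as hard as graph isomorphism**, even for geodetic graphs of
diameter at most 11.
(1) A polynomial-time map `T` sends every graph to a geodetic graph of diameter at most 11, and `T G`,
`T H` are isomorphic if and only if `G`, `H` are.
(2) Some polynomial-time algorithm decides isomorphism correctly for all pairs of geodetic graphs,
given by their adjacency matrices, if and only if GRAPH ISOMORPHISM is in `P`.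
(3) The same for the geodetic graphs of diameter at most 11.
(4) Every problem in `NP` has a polynomial-time many-one reduction to graph isomorphism all of whose
values are pairs of geodetic graphs if and only if GRAPH ISOMORPHISM is `NP`-hard. -/
theorem result :
    (∃ (N : ℕ → ℕ) (T : ∀ n, SimpleGraph (Fin n) → SimpleGraph (Fin (N n)))
        (F : List Bool → List Bool), PolyTime F ∧
      (∀ n G, F (bits (adjMatrix G)) = bits (adjMatrix (T n G))) ∧
      (∀ n G, Geodetic (T n G) ∧ ∀ u v, (T n G).dist u v ≤ 11) ∧
      ∀ n m G H, Nonempty (T n G ≃g T m H) ↔ Nonempty (G ≃g H)) ∧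
    ((∃ A : List Bool → List Bool, PolyTime A ∧
        ∀ (n m : ℕ) (G : SimpleGraph (Fin n)) (H : SimpleGraph (Fin m)),
          Geodetic G → Geodetic H →
          (A (bits (adjMatrix G, adjMatrix H)) = [true] ↔ Nonempty (G ≃g H))) ↔ InP GI) ∧
    ((∃ A : List Bool → List Bool, PolyTime A ∧
        ∀ (n m : ℕ) (G : SimpleGraph (Fin n)) (H : SimpleGraph (Fin m)),
          (Geodetic G ∧ ∀ u v, G.dist u v ≤ 11) → (Geodetic H ∧ ∀ u v, H.dist u v ≤ 11) →
          (A (bits (adjMatrix G, adjMatrix H)) = [true] ↔ Nonempty (G ≃g H))) ↔ InP GI) ∧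
    ((∀ L : Set (List Bool), InNP L → ∃ g : List Bool → List Bool, PolyTime g ∧
        ∀ x, ∃ (n m : ℕ) (G : SimpleGraph (Fin n)) (H : SimpleGraph (Fin m)),
          Geodetic G ∧ Geodetic H ∧ g x = bits (adjMatrix G, adjMatrix H) ∧
          (x ∈ L ↔ Nonempty (G ≃g H))) ↔ NPHard GI) := by
  obtain ⟨⟨F, hF, h1⟩, h2, h3⟩ := GIT129.transfer GD129.TG (fun _ G => Geodetic G)
    GD129.poly_redG GD129.redG_adjMatrix GD129.TG_iso_iff fun n G => (GD129.TG_hasPot n G).1
  obtain ⟨-, h4, -⟩ := GIT129.transfer GD129.TG
    (fun _ G => Geodetic G ∧ ∀ u v, G.dist u v ≤ 11)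
    GD129.poly_redG GD129.redG_adjMatrix GD129.TG_iso_iff GD129.TG_hasPot
  exact ⟨⟨_, GD129.TG, F, hF, h1, GD129.TG_hasPot, GD129.TG_iso_iff⟩, h2, h4, h3⟩

end Pool.Agent.Results.MP_f934c9_lc.GeodeticGIComplete
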